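import Pool.Agent.helper54.V3.SpecG

/-!
# v3:GHP: no poles in the copies of compact subsets
-/

set_option autoImplicit false

open Complex Metric Set Filter Topology MeasureTheory MPS V3

noncomputable section

namespace V3S

theorem GHP (hGBA : GBA_stmt) (hGLB : GLB_stmt) (hGFK : GFK_stmt) : GHP_stmt := by
  intro n ra Cf D hS hL K hK hKP
  obtain ⟨ρ, hρ0, hρ⟩ := hK.isBounded.subset_ball_lt 0 0
  obtain ⟨-, -, -, -, -, -, hlast⟩ := hGLB n ra Cf D hS hL
  obtain ⟨δ, hδ0, hδ⟩ := hlast K hK hKP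
  have hF := (hGFK n ra Cf D hS hL ρ hρ0).2 (δ / 2) (by positivity)
  filter_upwards [hδ, hF] with m h1 h2
  intro j hj x hx l hjl
  obtain ⟨-, -, -, hit, -, hp, -⟩ := hGBA n ra Cf (D m) (hS.good m)
  have e1 : (D m).F (D m).k x = (D m).p (l + ((D m).k - j : ℕ)) := by
    have e2 : (D m).k = ((D m).k - j) + j := by omega
    have e3 : (D m).F (D m).k x = (D m).F (((D m).k - j) + j) x := by rw [← e2]
    rw [e3, hit, hjl, hp]
  have h3 := h1 x hx (l + ((D m).k - j : ℕ))
  have h4 := (h2 x (hρ hx)).1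
  rw [e1] at h4
  linarith

end V3S
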