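import Pool.Agent.helper36.V3.SpecS
import Pool.Agent.helper30.PP.STEP2

/-!
# v3:STEP3: one more level in the chain step
-/

set_option autoImplicit false

open Complex Metric Set Filter Topology MeasureTheory MPS

noncomputable section

namespace PPS

theorem STEP3 (hLUN : LUN_stmt) (hS3G : S3G_stmt) (hS3A : S3A_stmt) : STEP3_stmt := by
  intro n k _ f b g R ε h r₀ χ G0 PP M T G Q hH hQk
  have hsu := hH.su3
  have hsys := hH.sys
  obtain ⟨hs0, -, hχ, -, -, -, -, -, -⟩ := hS3G n k f b g R ε h r₀ χ G0 PP M hsu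
  obtain ⟨hAg, -⟩ := hS3A n k f b g R ε h r₀ χ G0 PP M T G Q hH
  have hTQ : 0 < T Q := hsys.pos Q le_rfl
  have hh : 0 < h := hsu.h0
  -- disjointness near the centre
  have hdis : ∃ δ : ℝ, 0 < δ ∧ (1 ≤ Q → Q ∉ PP →
      Disjoint (G Q '' ball 0 δ) (χ '' ball 0 h)) := by
    by_cases hc : 1 ≤ Q ∧ Q ∉ PP
    · have hfar := hsu.hPP Q hc.1 hQk hc.2
      rw [← hsys.val Q le_rfl] at hfar
      have hcont : ContinuousAt (G Q) 0 :=
        ((hsys.diff Q le_rfl).differentiableAt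
          (isOpen_ball.mem_nhds (mem_ball_self hTQ))).continuousAt
      have hpos : 0 < 6 * h * ‖deriv χ 0‖ := by positivity
      obtain ⟨δ, hδ0, hδ⟩ := Metric.continuousAt_iff.1 hcont _ hpos
      refine ⟨δ, hδ0, fun _ _ => ?_⟩
      rw [Set.disjoint_left]
      rintro z ⟨w, hw, hwz⟩ ⟨v, hv, hvz⟩
      have h1 := hδ (mem_ball.1 hw)
      rw [dist_eq_norm] at h1
      have hv' : ‖v‖ < h := by rwa [mem_ball_zero_iff] at hv
      have h2 := hχ v (by
        rw [mem_ball_zero_iff]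
        linarith)
      have h3 : G Q w = χ v := hwz.trans hvz.symm
      have h4 : ‖G Q 0 - χ 0‖ ≤ ‖G Q w - G Q 0‖ + ‖χ v - χ 0‖ := by
        have : G Q 0 - χ 0 = -(G Q w - G Q 0) + (χ v - χ 0) := by
          rw [h3]
          ring
        rw [this]
        refine le_trans (norm_add_le _ _) ?_
        rw [norm_neg]
      have h5 : 11 / 10 * ‖deriv χ 0‖ * ‖v‖ ≤ 11 / 10 * ‖deriv χ 0‖ * h :=
        mul_le_mul_of_nonneg_left hv'.le (by positivity)
      have h6 : 0 < ‖deriv χ 0‖ * h := mul_pos hs0 hh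
      nlinarith
    · exact ⟨1, one_pos, fun h1 h2 => absurd ⟨h1, h2⟩ hc⟩
  obtain ⟨δ, hδ0, hδ⟩ := hdis
  set S : Set ℝ := {r | 0 < r ∧ r ≤ T Q ∧ ¬ Fail3 f h χ G0 PP G Q r} with hS
  have hmem : min (min r₀ (T Q)) δ ∈ S := by
    have hr0 : 0 < min (min r₀ (T Q)) δ := lt_min (lt_min hsu.r0 hTQ) hδ0
    refine ⟨hr0, le_trans (min_le_left _ _) (min_le_right _ _), ?_⟩
    rintro (⟨h1, h2, h3⟩ | h3)
    · exact h3 ((hδ h1 h2).mono_left (image_mono (ball_subset_ball (min_le_right _ _))))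
    · apply h3
      have hsub : ball (0 : ℂ) (min (min r₀ (T Q)) δ) ⊆ ball 0 r₀ :=
        ball_subset_ball (le_trans (min_le_left _ _) (min_le_left _ _))
      refine ⟨G0 (Q + 1), (hsu.tdiff (Q + 1) hQk).mono hsub, rfl, ?_⟩
      intro w hw
      have h4 : G Q w = G0 Q w := hAg Q le_rfl (ball_subset_ball (min_le_left _ _) hw)
      rw [h4]
      exact hsu.trel Q hQk w (hsub hw)
  have hSne : S.Nonempty := ⟨_, hmem⟩
  have hSb : BddAbove S := ⟨T Q, fun r hr => hr.2.1⟩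
  set t' : ℝ := sSup S with ht'
  have ht1 : t' ≤ T Q := csSup_le hSne fun r hr => hr.2.1
  have ht2 : 0 < t' := lt_of_lt_of_le hmem.1 (le_csSup hSb hmem)
  have hfail : ∀ r, t' < r → r < T Q → Fail3 f h χ G0 PP G Q r := by
    intro r hr1 hr2
    by_contra hf
    exact absurd (le_csSup hSb (show r ∈ S from ⟨ht2.trans hr1, hr2.le, hf⟩)) (not_le.mpr hr1)
  have hnd : 1 ≤ Q → Q ∉ PP → Disjoint (G Q '' ball 0 t') (χ '' ball 0 h) := by
    intro h1 h2
    by_contra h3
    rw [Set.not_disjoint_iff] at h3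
    obtain ⟨z, ⟨w, hw, hwz⟩, hz⟩ := h3
    rw [mem_ball] at hw
    obtain ⟨r, hr, hwr⟩ := exists_lt_of_lt_csSup hSne hw
    exact hr.2.2 (Or.inl ⟨h1, h2, Set.not_disjoint_iff.mpr ⟨z, ⟨w, mem_ball.mpr hwr, hwz⟩, hz⟩⟩)
  obtain ⟨g', hg1, hg2, hg3⟩ := STEP2_glue hLUN f (G Q) 0 (G0 (Q + 1) 0) S hSne hSb
    (fun r hr => hr.1) (fun r hr => by
      by_contra hb
      exact hr.2.2 (Or.inr hb))
  have hT : ∀ q ≤ Q, Function.update T (Q + 1) t' q = T q := fun q hq =>
    Function.update_of_ne (by omega) _ _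
  have hTn : Function.update T (Q + 1) t' (Q + 1) = t' := Function.update_self _ _ _
  have hG : ∀ q ≤ Q, Function.update G (Q + 1) g' q = G q := fun q hq =>
    Function.update_of_ne (by omega) _ _
  have hGn : Function.update G (Q + 1) g' (Q + 1) = g' := Function.update_self _ _ _
  refine ⟨t', g', ⟨hsu, ⟨?_, ?_, ?_, ?_, ?_, ?_, ?_, ?_⟩, hQk⟩, hfail⟩
  · rw [hT 0 (by omega)]
    exact hsys.t0
  · intro q hq
    rcases Nat.lt_succ_iff_lt_or_eq.mp hq with hq' | hq'
    · rw [hT q hq'.le, hT (q + 1) hq']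
      exact hsys.anti q hq'
    · subst hq'
      rw [hT q le_rfl, hTn]
      exact ht1
  · intro q hq
    rcases Nat.le_succ_iff.mp hq with hq' | hq'
    · rw [hT q hq']
      exact hsys.pos q hq'
    · subst hq'
      rw [hTn]
      exact ht2
  · rw [hG 0 (by omega)]
    exact hsys.g0
  · intro q hq
    rcases Nat.le_succ_iff.mp hq with hq' | hq'
    · rw [hT q hq', hG q hq']
      exact hsys.diff q hq'
    · subst hq'
      rw [hTn, hGn]
      exact hg1
  · intro q hq w hw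
    rcases Nat.lt_succ_iff_lt_or_eq.mp hq with hq' | hq'
    · rw [hT (q + 1) hq'] at hw
      rw [hG q hq'.le, hG (q + 1) hq']
      exact hsys.rel q hq' w hw
    · subst hq'
      rw [hTn] at hw
      rw [hG q le_rfl, hGn]
      exact hg3 w hw
  · intro q hq
    rcases Nat.le_succ_iff.mp hq with hq' | hq'
    · rw [hG q hq']
      exact hsys.val q hq'
    · subst hq'
      rw [hGn]
      exact hg2
  · intro q hq1 hq hqp
    rcases Nat.lt_succ_iff_lt_or_eq.mp hq with hq' | hq'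
    · rw [hT (q + 1) hq', hG q hq'.le]
      exact hsys.disj q hq1 hq' hqp
    · subst hq'
      rw [hTn, hG q le_rfl]
      exact hnd hq1 hqp

end PPS
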