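import Pool.Agent.helper54.V3.SpecT

/-!
# v3:THM: the theorem of Hurwitz with multiplicities
-/

set_option autoImplicit false

open Complex Metric Set Filter Topology MeasureTheory

noncomputable section

namespace V3

/-- Nearest zeros: a sequence of zeros converging to the centre. -/
theorem THM_seq (U : Ultrafilter ℕ) (f : ℕ → ℂ → ℂ) (z₀ : ℂ) (r : ℝ) (hr : 0 < r)
    (hd : ∀ᶠ m in (U : Filter ℕ), DifferentiableOn ℂ (f m) (ball z₀ r))
    (hz : ∀ ε > (0 : ℝ), ∀ᶠ m in (U : Filter ℕ), ∃ z ∈ ball z₀ ε, f m z = 0) :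
    ∃ z : ℕ → ℂ, (∀ᶠ m in (U : Filter ℕ), f m (z m) = 0) ∧ Tendsto z U (𝓝 z₀) := by
  classical
  have hex : ∀ᶠ m in (U : Filter ℕ), ∃ z, f m z = 0 ∧
      ∀ z' ∈ closedBall z₀ (r / 2), f m z' = 0 → dist z z₀ ≤ dist z' z₀ := by
    filter_upwards [hd, hz (r / 2) (by positivity)] with m h1 h2
    obtain ⟨w, hw, hw0⟩ := h2
    have hsub : closedBall z₀ (r / 2) ⊆ ball z₀ r := closedBall_subset_ball (by linarith)
    have hc : ContinuousOn (f m) (closedBall z₀ (r / 2)) := (h1.mono hsub).continuousOn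
    have hcl : IsClosed (closedBall z₀ (r / 2) ∩ f m ⁻¹' {0}) :=
      hc.preimage_isClosed_of_isClosed isClosed_closedBall isClosed_singleton
    have hcp : IsCompact (closedBall z₀ (r / 2) ∩ f m ⁻¹' {0}) :=
      (isCompact_closedBall z₀ (r / 2)).of_isClosed_subset hcl inter_subset_left
    have hne : (closedBall z₀ (r / 2) ∩ f m ⁻¹' {0}).Nonempty :=
      ⟨w, ball_subset_closedBall hw, hw0⟩
    obtain ⟨z, hz1, hz2⟩ := hcp.exists_isMinOn hne
      (f := fun x => dist x z₀) (by fun_prop)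
    refine ⟨z, hz1.2, ?_⟩
    intro z' h3 h4
    exact hz2 ⟨h3, h4⟩
  let z : ℕ → ℂ := fun m => if h : ∃ z, f m z = 0 ∧
      ∀ z' ∈ closedBall z₀ (r / 2), f m z' = 0 → dist z z₀ ≤ dist z' z₀ then h.choose else z₀
  have hz' : ∀ᶠ m in (U : Filter ℕ), f m (z m) = 0 ∧
      ∀ z' ∈ closedBall z₀ (r / 2), f m z' = 0 → dist (z m) z₀ ≤ dist z' z₀ := by
    filter_upwards [hex] with m h
    have : z m = h.choose := dif_pos h
    rw [this]
    exact h.choose_spec
  refine ⟨z, hz'.mono fun m h => h.1, ?_⟩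
  rw [Metric.tendsto_nhds]
  intro η hη
  filter_upwards [hz', hz (min η (r / 2)) (lt_min hη (by positivity))] with m h1 h2
  obtain ⟨w, hw, hw0⟩ := h2
  rw [mem_ball] at hw
  refine lt_of_le_of_lt (h1.2 w ?_ hw0) (lt_of_lt_of_le hw (min_le_left _ _))
  rw [mem_closedBall]
  exact (lt_of_lt_of_le hw (min_le_right _ _)).le

/-- Convergence of the quotients on circles. -/
theorem THM_circle (U : Ultrafilter ℕ) (f : ℕ → ℂ → ℂ) (F : ℂ → ℂ) (z₀ : ℂ) (r₁ : ℝ)
    (h1 : 0 < r₁) (hFc : ContinuousOn F (sphere z₀ r₁)) (hF0 : F z₀ = 0)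
    (hu : TendstoUniformlyOn f F U (sphere z₀ r₁)) (z : ℕ → ℂ)
    (hz0 : ∀ᶠ m in (U : Filter ℕ), f m (z m) = 0) (hz : Tendsto z U (𝓝 z₀)) :
    TendstoUniformlyOn (fun m => dslope (f m) (z m)) (dslope F z₀) U (sphere z₀ r₁) := by
  obtain ⟨M, hM⟩ := (isCompact_sphere z₀ r₁).exists_bound_of_continuousOn hFc
  rw [Metric.tendstoUniformlyOn_iff] at hu ⊢
  intro η hη
  have hM' : 0 < |M| + 1 := by positivity
  rw [Metric.tendsto_nhds] at hz
  filter_upwards [hu (η * r₁ / 4) (by positivity), hz0,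
    hz (min (r₁ / 2) (η * r₁ ^ 2 / (4 * (|M| + 1)))) (lt_min (by positivity) (by positivity))]
    with m hm1 hm2 hm3
  intro x hx
  have hxr : ‖x - z₀‖ = r₁ := by
    rw [mem_sphere, dist_eq_norm] at hx
    exact hx
  rw [dist_eq_norm] at hm3
  have hd1 : ‖z m - z₀‖ < r₁ / 2 := lt_of_lt_of_le hm3 (min_le_left _ _)
  have hd2 : ‖z m - z₀‖ < η * r₁ ^ 2 / (4 * (|M| + 1)) := lt_of_lt_of_le hm3 (min_le_right _ _)
  have hxz : r₁ / 2 ≤ ‖x - z m‖ := by
    have : ‖x - z₀‖ ≤ ‖x - z m‖ + ‖z m - z₀‖ := by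
      have e : x - z₀ = (x - z m) + (z m - z₀) := by ring
      rw [e]
      exact norm_add_le _ _
    linarith
  have hx0 : x - z₀ ≠ 0 := by
    intro h0
    rw [h0, norm_zero] at hxr
    linarith
  have hxm : x - z m ≠ 0 := by
    intro h0
    rw [h0, norm_zero] at hxz
    linarith
  have e1 : dslope F z₀ x = F x / (x - z₀) := by
    rw [dslope_of_ne _ (sub_ne_zero.1 hx0), slope_def_field, hF0, sub_zero]
  have e2 : dslope (f m) (z m) x = f m x / (x - z m) := by
    rw [dslope_of_ne _ (sub_ne_zero.1 hxm), slope_def_field, hm2, sub_zero]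
  rw [e1, e2, dist_eq_norm]
  have e3 : F x / (x - z₀) - f m x / (x - z m) =
      (F x - f m x) / (x - z m) + F x * (z₀ - z m) / ((x - z₀) * (x - z m)) := by
    field_simp
    ring
  rw [e3]
  refine lt_of_le_of_lt (norm_add_le _ _) ?_
  have b1 : ‖(F x - f m x) / (x - z m)‖ ≤ η / 2 := by
    rw [norm_div, div_le_iff₀ (by positivity)]
    have := hm1 x hx
    rw [dist_eq_norm] at this
    have h3 : η / 2 * (r₁ / 2) ≤ η / 2 * ‖x - z m‖ := mul_le_mul_of_nonneg_left hxz (by positivity)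
    linarith
  have b2 : ‖F x * (z₀ - z m) / ((x - z₀) * (x - z m))‖ < η / 2 := by
    rw [norm_div, norm_mul, norm_mul, div_lt_iff₀ (by positivity), hxr]
    have h4 : ‖F x‖ ≤ |M| := (hM x hx).trans (le_abs_self M)
    have h5 : ‖z₀ - z m‖ = ‖z m - z₀‖ := norm_sub_rev _ _
    rw [h5]
    have h6 : ‖F x‖ * ‖z m - z₀‖ ≤ |M| * ‖z m - z₀‖ :=
      mul_le_mul_of_nonneg_right h4 (norm_nonneg _)
    have h7 : (|M| + 1) * ‖z m - z₀‖ < η * r₁ ^ 2 / 4 := by
      rw [lt_div_iff₀ (by positivity)] at hd2 ⊢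
      linarith
    have h8 : |M| * ‖z m - z₀‖ ≤ (|M| + 1) * ‖z m - z₀‖ :=
      mul_le_mul_of_nonneg_right (by linarith) (norm_nonneg _)
    have h9 : η / 2 * (r₁ * (r₁ / 2)) ≤ η / 2 * (r₁ * ‖x - z m‖) := by
      apply mul_le_mul_of_nonneg_left _ (by positivity)
      exact mul_le_mul_of_nonneg_left hxz h1.le
    nlinarith
  linarith

/-- Peeling off one zero from the limit. -/
theorem THM_ord (F : ℂ → ℂ) (z₀ : ℂ) (N : ℕ) (hF : DifferentiableAt ℂ F z₀)
    (h : OrdGe F z₀ (N + 1)) : F z₀ = 0 ∧ OrdGe (dslope F z₀) z₀ N := by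
  obtain ⟨k, hk, he⟩ := h
  have h0 : F z₀ = 0 := by
    rw [he.self_of_nhds, sub_self, zero_pow (by omega), zero_mul]
  refine ⟨h0, k, hk, ?_⟩
  have hc1 : ContinuousAt (dslope F z₀) z₀ := continuousAt_dslope_same.2 hF
  have hc2 : ContinuousAt (fun x => (x - z₀) ^ N * k x) z₀ :=
    ((continuousAt_id.sub continuousAt_const).pow N).mul hk.continuousAt
  have := (hc1.eventuallyEq_nhds_iff_eventuallyEq_nhdsNE hc2).1 (by
    filter_upwards [mem_nhdsWithin_of_mem_nhds he, self_mem_nhdsWithin] with x hx hne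
    have hx0 : x - z₀ ≠ 0 := sub_ne_zero.2 hne
    have hx' : F x = (x - z₀) ^ (N + 1) * k x := hx
    rw [dslope_of_ne _ hne, slope_def_field, h0, sub_zero, hx']
    field_simp
    ring)
  exact this

/-- Putting the zero back. -/
theorem THM_back (f : ℂ → ℂ) (z₀ z : ℂ) (r ε : ℝ) (hε : ε ≤ r) (N : ℕ)
    (hf : DifferentiableOn ℂ f (ball z₀ r)) (hz : z ∈ ball z₀ ε) (hfz : f z = 0)
    (h : ∃ (S : Finset ℂ) (μ : ℂ → ℕ), (∀ w ∈ S, w ∈ ball z₀ ε ∧ OrdGe (dslope f z) w (μ w)) ∧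
      ∑ w ∈ S, μ w = N) :
    ∃ (S : Finset ℂ) (μ : ℂ → ℕ), (∀ w ∈ S, w ∈ ball z₀ ε ∧ OrdGe f w (μ w)) ∧
      ∑ w ∈ S, μ w = N + 1 := by
  classical
  obtain ⟨S, μ, h1, h2⟩ := h
  have hmul : ∀ x, f x = (x - z) * dslope f z x := by
    intro x
    have := sub_smul_dslope f z x
    rw [hfz, sub_zero, smul_eq_mul] at this
    exact this.symm
  have hzr : z ∈ ball z₀ r := ball_subset_ball hε hz
  have hds : DifferentiableOn ℂ (dslope f z) (ball z₀ r) :=
    (Complex.differentiableOn_dslope (isOpen_ball.mem_nhds hzr)).2 hf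
  refine ⟨insert z S, fun w => (if w ∈ S then μ w else 0) + (if w = z then 1 else 0), ?_, ?_⟩
  · intro w hw
    have hwb : w ∈ ball z₀ ε := by
      rcases Finset.mem_insert.1 hw with h3 | h3
      · rw [h3]; exact hz
      · exact (h1 w h3).1
    refine ⟨hwb, ?_⟩
    show OrdGe f w ((if w ∈ S then μ w else 0) + (if w = z then 1 else 0))
    have hord : OrdGe (dslope f z) w (if w ∈ S then μ w else 0) := by
      by_cases hwS : w ∈ S
      · rw [if_pos hwS]
        exact (h1 w hwS).2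
      · rw [if_neg hwS]
        refine ⟨dslope f z, ?_, ?_⟩
        · exact hds.analyticAt (isOpen_ball.mem_nhds (ball_subset_ball hε hwb))
        · exact Filter.Eventually.of_forall fun x => by rw [pow_zero, one_mul]
    obtain ⟨k, hk, he⟩ := hord
    by_cases hwz : w = z
    · rw [if_pos hwz]
      refine ⟨k, hk, ?_⟩
      filter_upwards [he] with x hx
      rw [hmul x, hx, hwz, pow_succ]
      ring
    · rw [if_neg hwz, add_zero]
      refine ⟨fun x => (x - z) * k x, ?_, ?_⟩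
      · exact (analyticAt_id.sub analyticAt_const).mul hk
      · filter_upwards [he] with x hx
        rw [hmul x, hx]
        ring
  · rw [Finset.sum_add_distrib, Finset.sum_ite_eq' (insert z S) z (fun _ => 1),
      if_pos (Finset.mem_insert_self z S)]
    have h3 : ∑ w ∈ insert z S, (if w ∈ S then μ w else 0) = ∑ w ∈ S, μ w := by
      rw [← Finset.sum_filter]
      apply Finset.sum_congr _ fun _ _ => rfl
      ext w
      rw [Finset.mem_filter]
      constructor
      · exact fun h => h.2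
      · exact fun h => ⟨Finset.mem_insert_of_mem h, h⟩
    rw [h3, h2]

theorem THM (hTHU : THU_stmt) (hTMX : TMX_stmt) : THM_stmt := by
  intro U f F z₀ r ε N hr hε hεr
  induction N generalizing f F with
  | zero =>
    intro _ _ _ _
    exact Filter.Eventually.of_forall fun m => ⟨∅, fun _ => 0, by simp, by simp⟩
  | succ N ih =>
    intro hd hlim hne hord
    have hFd : DifferentiableOn ℂ F (ball z₀ r) := hlim.differentiableOn hd isOpen_ball
    have hz0r : z₀ ∈ ball z₀ r := mem_ball_self hr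
    obtain ⟨hF0, hord'⟩ := THM_ord F z₀ N (hFd.differentiableAt (isOpen_ball.mem_nhds hz0r)) hord
    obtain ⟨z, hz1, hz2⟩ := THM_seq U f z₀ r hr hd
      (fun η hη => hTHU U f F z₀ r hr hd hlim hF0 hne η hη)
    have hzb : ∀ η > (0 : ℝ), ∀ᶠ m in (U : Filter ℕ), z m ∈ ball z₀ η := fun η hη =>
      hz2 (isOpen_ball.mem_nhds (mem_ball_self hη))
    have hd' : ∀ᶠ m in (U : Filter ℕ), DifferentiableOn ℂ (dslope (f m) (z m)) (ball z₀ r) := by
      filter_upwards [hd, hzb r hr] with m h1 h2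
      exact (Complex.differentiableOn_dslope (isOpen_ball.mem_nhds h2)).2 h1
    have hFd' : DifferentiableOn ℂ (dslope F z₀) (ball z₀ r) :=
      (Complex.differentiableOn_dslope (isOpen_ball.mem_nhds hz0r)).2 hFd
    have hlim' : TendstoLocallyUniformlyOn (fun m => dslope (f m) (z m)) (dslope F z₀) U
        (ball z₀ r) := by
      rw [Metric.tendstoLocallyUniformlyOn_iff]
      intro η hη x hx
      obtain ⟨r₁, h1, h2⟩ := exists_between (mem_ball.1 hx)
      have h0 : 0 < r₁ := lt_of_le_of_lt dist_nonneg h1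
      have hsub : sphere z₀ r₁ ⊆ ball z₀ r := fun y hy => by
        rw [mem_sphere] at hy
        rw [mem_ball, hy]
        exact h2
      have hu : TendstoUniformlyOn f F U (sphere z₀ r₁) :=
        (tendstoLocallyUniformlyOn_iff_forall_isCompact isOpen_ball).1 hlim _ hsub
          (isCompact_sphere z₀ r₁)
      have hcirc := THM_circle U f F z₀ r₁ h0 (hFd.continuousOn.mono hsub) hF0 hu z hz1 hz2
      have hin := hTMX U _ _ z₀ r₁ r h0 h2 hd' hFd' hcirc
      rw [Metric.tendstoUniformlyOn_iff] at hin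
      refine ⟨closedBall z₀ r₁, mem_nhdsWithin_of_mem_nhds
        (closedBall_mem_nhds_of_mem (mem_ball.2 h1)), hin η hη⟩
    have hne' : ∃ x ∈ ball z₀ r, dslope F z₀ x ≠ 0 := by
      obtain ⟨x, hx, hx0⟩ := hne
      refine ⟨x, hx, fun h0 => hx0 ?_⟩
      have := sub_smul_dslope F z₀ x
      rw [h0, smul_zero, hF0, sub_zero] at this
      exact this.symm
    have hih := ih (fun m => dslope (f m) (z m)) (dslope F z₀) hd' hlim' hne' hord'
    filter_upwards [hih, hd, hz1, hzb ε hε] with m h1 h2 h3 h4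
    exact THM_back (f m) z₀ (z m) r ε hεr N h2 h4 h3 h1

end V3
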